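import Pool.Agent.Lib.MP_3ee548_nt.RS.Iface

/-!
# COV (helper40)

`PC s D T ≤ 4 (1 + T'/T) PC s D T'`: the interval `[-1/T, 1/T]` is covered by `⌈T'/T⌉` intervals of
half-length at most `1/T'`.
-/

set_option autoImplicit false

open scoped BigOperators
open Classical

namespace Pool.Agent.Lib.MP_3ee548_nt.RS.H40

/-- COV. -/
theorem cov (h : ShiftStatement) : CovStatement := by
  intro α s D T T' hT hT'
  have hr : 0 < T' / T := div_pos hT' hT
  set n : ℕ := ⌈T' / T⌉₊ with hn
  have hn1 : 0 < n := Nat.ceil_pos.2 hr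
  have hnR : (0 : ℝ) < n := by exact_mod_cast hn1
  have hn2 : T' / T ≤ n := Nat.le_ceil _
  have hn3 : (n : ℝ) ≤ 1 + T' / T := by
    have := Nat.ceil_lt_add_one hr.le
    linarith
  have hnT : T' ≤ n * T := by rwa [div_le_iff₀ hT] at hn2
  have hnT0 : 0 < n * T := by positivity
  set z : ℕ → ℝ := fun i => -(1 / T) + (2 * i + 1) / (n * T) with hz
  have hsub : (D ×ˢ D).filter (fun p : α × α => |s p.1 - s p.2| ≤ 1 / T) ⊆
      (Finset.range n).biUnion
        (fun i => (D ×ˢ D).filter (fun p : α × α => |s p.1 - s p.2 - z i| ≤ 1 / T')) := by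
    intro p hp
    rw [Finset.mem_filter] at hp
    rw [Finset.mem_biUnion]
    set x : ℝ := s p.1 - s p.2 with hx
    have hx1 := abs_le.1 hp.2
    set y : ℝ := (x + 1 / T) * (n * T) / 2 with hy
    have hy0 : 0 ≤ y := by
      have : 0 ≤ x + 1 / T := by linarith [hx1.1]
      positivity
    have hyn : y ≤ n := by
      have h1 : x + 1 / T ≤ 2 / T := by
        have : (2 : ℝ) / T = 1 / T + 1 / T := by ring
        linarith [hx1.2]
      calc y ≤ 2 / T * (n * T) / 2 := by
            rw [hy]; gcongr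
        _ = n := by field_simp
    obtain ⟨i, hi, h1, h2⟩ : ∃ i : ℕ, i < n ∧ (i : ℝ) ≤ y ∧ y ≤ i + 1 := by
      rcases lt_or_ge y n with hlt | hge
      · exact ⟨⌊y⌋₊, (Nat.floor_lt hy0).2 hlt, Nat.floor_le hy0, (Nat.lt_floor_add_one y).le⟩
      · refine ⟨n - 1, by omega, ?_, ?_⟩
        · have : ((n - 1 : ℕ) : ℝ) ≤ n := by exact_mod_cast Nat.sub_le n 1
          linarith
        · have : ((n - 1 : ℕ) : ℝ) + 1 = n := by
            rw [Nat.cast_sub hn1]; push_cast; ring
          linarith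
    refine ⟨i, Finset.mem_range.2 hi, Finset.mem_filter.2 ⟨hp.1, ?_⟩⟩
    have e1 : x - z i = (2 * y - (2 * i + 1)) / (n * T) := by
      rw [hz, hy]
      field_simp
      ring
    rw [e1, abs_div, abs_of_pos hnT0]
    have e2 : |2 * y - (2 * (i : ℝ) + 1)| ≤ 1 := by
      rw [abs_le]
      constructor <;> linarith
    calc |2 * y - (2 * (i : ℝ) + 1)| / (n * T) ≤ 1 / (n * T) := by gcongr
      _ ≤ 1 / T' := one_div_le_one_div_of_le hT' hnT
  have h1 := (Finset.card_le_card hsub).trans Finset.card_biUnion_le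
  have h2 : PC s D T ≤ ∑ i ∈ Finset.range n, PCz s D T' (z i) := by
    unfold PC PCz
    exact_mod_cast h1
  have h3 : ∑ i ∈ Finset.range n, PCz s D T' (z i) ≤ ∑ _i ∈ Finset.range n, 4 * PC s D T' :=
    Finset.sum_le_sum fun i _ => h α s D T' (z i) hT'
  rw [Finset.sum_const, Finset.card_range, nsmul_eq_mul] at h3
  have h4 : 0 ≤ PC s D T' := by unfold PC; positivity
  calc PC s D T ≤ n * (4 * PC s D T') := h2.trans h3
    _ ≤ (1 + T' / T) * (4 * PC s D T') := by gcongr
    _ = 4 * (1 + T' / T) * PC s D T' := by ring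

end Pool.Agent.Lib.MP_3ee548_nt.RS.H40
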